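import Pool.Agent.H.MP_85a811_lc.C

namespace Pool.Agent.H.MP_5100e0_lc
open Pool.Agent.Lib.CX Pool.Agent.H.MP_85a811_lc Finset

section
variable {V : Type} [Fintype V] [DecidableEq V]

/-- firing `v` in the multigraph with `μ v w` arcs from `v` to `w` -/
def fireM (μ : V → V → ℕ) (x : V → ℤ) (v : V) : V → ℤ :=
  fun w => x w - (if w = v then ∑ z, (μ v z : ℤ) else 0) + μ v w

/-- some legal game leads from `x` to `y` -/
def Reach (μ : V → V → ℕ) (x y : V → ℤ) : Prop :=
  Relation.ReflTransGen (fun a b => ∃ v, b = fireM μ a v ∧ 0 ≤ b v) x y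

/-- every language whose complement is in NP reduces to `B` -/
def CoNPHard {β : Type} [Enc β] (B : β → Prop) : Prop := ∀ A : List Bool → Prop, InNP (fun w => ¬ A w) → Red A B

/-- an input: a matrix of multiplicities and two chip distributions -/
abbrev Inst := List (List ℕ) × List ℤ × List ℤ

/-- the number of arcs from `u` to `v` -/
def Inst.mult (a : Inst) (u v : Fin a.1.length) : ℕ := (a.1.getD u []).getD v 0

/-- square matrix with zero diagonal, one integer for each vertex in both distributions -/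
def Inst.Valid (a : Inst) : Prop :=
  (∀ r ∈ a.1, r.length = a.1.length) ∧ (∀ v, a.mult v v = 0) ∧ a.2.1.length = a.1.length ∧ a.2.2.length = a.1.length

/-- the second distribution is reachable from the first -/
def Inst.Yes (a : Inst) : Prop := Reach a.mult (fun v => a.2.1.getD v 0) fun v => a.2.2.getD v 0

variable (A : V → V → Prop) (μ : V → V → ℕ) (hμ : ∀ v w, (A v w → μ v w = 1) ∧ (¬ A v w → μ v w = 0))
include hμ

theorem fireM_eq (x : V → ℤ) (v : V) : fireM μ x v = fire A x v := by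
  classical
  funext w
  have : ∀ z, (μ v z : ℤ) = if A v z then 1 else 0 := fun z => by
    split_ifs with h
    · rw [(hμ v z).1 h]; rfl
    · rw [(hμ v z).2 h]; rfl
  simp only [fireM, fire, this, outdeg, card_filter]
  push_cast
  congr!

omit [DecidableEq V] hμ in
theorem Y_mono (x : V → ℤ) {c u : V → ℕ} (h : c ≤ u) (v : V) (e : c v = u v) : Y A x c v ≤ Y A x u v := by
  simp only [Y, e]
  have := sum_le_sum fun z (_ : z ∈ univ) => show (open Classical in if A z v then (c z : ℤ) else 0) ≤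
    (open Classical in if A z v then (u z : ℤ) else 0) by have : c z ≤ u z := h z; split_ifs <;> simp_all
  linarith

theorem of_reach (hA : ∀ v, ¬ A v v) (x y : V → ℤ) (h : Reach μ x y) (u : V → ℕ) (hu : ∀ w, Y A x u w < outdeg A w) :
    ∃ c ≤ u, y = Y A x c := by
  induction h with
  | refl => exact ⟨0, fun _ => Nat.zero_le _, (Y_zero A x).symm⟩
  | tail _ h ih =>
    obtain ⟨c, h1, rfl⟩ := ih
    obtain ⟨v, rfl, h2⟩ := h
    rw [fireM_eq A μ hμ] at h2 ⊢
    refine ⟨_, fun z => ?_, (Y_fire A x c v).symm⟩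
    have h3 : c z ≤ u z := h1 z
    by_cases hz : z = v
    · subst hz
      simp only [fire, if_true, hA, if_false] at h2
      simp only [Pi.add_apply, Pi.single_eq_same]
      by_contra h4
      have := Y_mono A x h1 z (by omega)
      have := hu z
      omega
    · simpa [Pi.single_apply, hz] using h3

theorem reach_of (hA : ∀ v, ¬ A v v) (x : V → ℤ) (hx : ¬ Terminating A x) (c : V) (r : V → ℕ)
    (hr : ∀ z v, A z v → v ≠ c → r z < r v) (f : V → ℕ) (hf : ∀ v ≠ c, 0 ≤ Y A x f v ∧ Y A x f v < outdeg A v) :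
    Reach μ x (Y A x f) := by
  have key : ∀ g ≤ f, g ≠ f → ∃ v, g v < f v ∧ (outdeg A v : ℤ) ≤ Y A x g v := fun g hg hne => by
    by_cases hc : g c = f c
    · obtain ⟨v, hv, hm⟩ := exists_min_image (univ.filter fun v => g v ≠ f v) r
        (by obtain ⟨v, h⟩ := Function.ne_iff.1 hne; exact ⟨v, by simpa using h⟩)
      have h1 : g v ≠ f v := by simpa using hv
      have h2 : g v ≤ f v := hg v
      have h3 : v ≠ c := fun h => h1 (h ▸ hc)
      refine ⟨v, by omega, ?_⟩
      have h4 := (hf v h3).1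
      have h5 := sum_congr rfl fun z (_ : z ∈ univ) => show (open Classical in if A z v then (g z : ℤ) else 0) =
          (open Classical in if A z v then (f z : ℤ) else 0) by
        split_ifs with h
        · by_contra h'
          exact (hm z (by simpa using h')).not_gt (hr z v h h3)
        · rfl
      simp only [Y] at h4 ⊢
      have h6 : (g v : ℤ) + 1 ≤ f v := by omega
      rw [h5]
      nlinarith [Int.natCast_nonneg (outdeg A v)]
    · by_contra h
      push Not at h
      refine hx (term_of A hA x g fun v => ?_)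
      have h2 : g v ≤ f v := hg v
      rcases h2.lt_or_eq with h2 | h2
      · exact h v h2
      · exact (Y_mono A x hg v h2).trans_lt (hf v fun e => hc (e ▸ h2)).2
  have : ∀ n, ∀ g ≤ f, ∑ v, g v + n = ∑ v, f v → Reach μ (Y A x g) (Y A x f) := fun n => by
    induction n with
    | zero =>
      intro g hg h
      rw [funext fun v => (sum_eq_sum_iff_of_le fun v _ => hg v).1 h v (mem_univ v)]
      exact .refl
    | succ n ih =>
      intro g hg h
      obtain ⟨v, h1, h2⟩ := key g hg (by rintro rfl; omega)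
      classical
      refine .head ⟨v, by rw [fireM_eq A μ hμ, ← Y_fire], ?_⟩ (ih _ (fun z => ?_) ?_)
      · rw [Y_fire]; simp [fire, hA, h2]
      · by_cases hz : z = v
        · subst hz; simpa using h1
        · simpa [Pi.single_apply, hz] using hg z
      · simp [sum_add_distrib]; omega
  simpa [Y_zero] using this _ 0 (fun _ => Nat.zero_le _) (by simp; rfl)
end

variable {W : Type} [DecidableEq W]

theorem mk_Y (vs : List W) (es : List (W × W)) (X : W → ℤ) (i : Fin (mkGr vs es).n) (O I : Finset W)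
    (hO : ∀ z, z ∈ O ↔ z ∈ vs ∧ ((mkGrEquiv vs es i).1, z) ∈ es)
    (hI : ∀ z, z ∈ I ↔ z ∈ vs ∧ (z, (mkGrEquiv vs es i).1) ∈ es) (U : W → ℕ) :
    outdeg (mkGr vs es).arc i = O.card ∧
    Y (mkGr vs es).arc (fun i => X (mkGrEquiv vs es i).1) (fun i => U (mkGrEquiv vs es i).1) i =
      X (mkGrEquiv vs es i).1 - O.card * U (mkGrEquiv vs es i).1 + ∑ v ∈ I, (U v : ℤ) := by
  classical
  have hs : ∀ g : W → ℤ, ∑ i, g (mkGrEquiv vs es i).1 = ∑ v ∈ vs.toFinset, g v := fun g => by
    let _ : Fintype {x | x ∈ vs} := Fintype.ofEquiv _ (mkGrEquiv vs es)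
    rw [Equiv.sum_comp (mkGrEquiv vs es) fun y => g y.1]
    exact (sum_subtype _ (by simp) g).symm
  have hO' : O = vs.toFinset.filter fun z => ((mkGrEquiv vs es i).1, z) ∈ es := by ext; simp [hO]
  have hI' : I = vs.toFinset.filter fun z => (z, (mkGrEquiv vs es i).1) ∈ es := by ext; simp [hI]
  have hd : (outdeg (mkGr vs es).arc i : ℤ) = O.card := by
    simp only [outdeg, hO', card_filter, mkGr_arc]
    push_cast
    convert hs fun z => if ((mkGrEquiv vs es i).1, z) ∈ es then 1 else 0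
  refine ⟨by exact_mod_cast hd, ?_⟩
  simp only [Y, hd, hI', mkGr_arc, sum_filter]
  congr 1
  convert hs fun z => if (z, (mkGrEquiv vs es i).1) ∈ es then (U z : ℤ) else 0

section
variable (vs : List W) (out : W → List W) (hc : ∀ v ∈ vs, ∀ w ∈ out v, w ∈ vs) (x : W → ℤ) (U : W × ℕ → ℕ)
  (i : Fin (mkGr (sV vs out) (sE vs out)).n)
include hc

theorem sub1 {v : W} {k : ℕ} (e : (mkGrEquiv _ _ i).1 = (v, k + 1)) :
    outdeg (mkGr (sV vs out) (sE vs out)).arc i = 1 ∧
    Y (mkGr (sV vs out) (sE vs out)).arc (fun i => sX x (mkGrEquiv _ _ i).1) (fun i => U (mkGrEquiv _ _ i).1) i =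
      U (v, 0) - U (v, k + 1) := by
  have h : (v, k + 1) ∈ sV vs out := e ▸ (mkGrEquiv _ _ i).2
  rw [mem_sV] at h
  obtain ⟨hv, hk⟩ : v ∈ vs ∧ k < (out v).length := h
  have := mk_Y _ _ (sX x) i {((out v).getD k v, 0)} {(v, 0)} ?_ ?_ U
  · rw [this.1, this.2, e]; simp [sX]; ring
  · rintro ⟨a, b⟩
    simp only [e, mem_sV, mem_sE, mem_singleton, Prod.mk.injEq]
    constructor
    · rintro ⟨rfl, rfl⟩
      refine ⟨⟨?_, Nat.zero_le _⟩, hv, k, hk, .inr ⟨rfl, rfl, rfl⟩⟩
      rw [List.getD_eq_getElem _ _ hk]; exact hc v hv _ (List.getElem_mem _)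
    · rintro ⟨-, -, j, -, ⟨h, -⟩ | ⟨h, rfl, rfl⟩⟩
      · omega
      · obtain rfl : k = j := by omega
        exact ⟨rfl, rfl⟩
  · rintro ⟨a, b⟩
    simp only [e, mem_sV, mem_sE, mem_singleton, Prod.mk.injEq]
    constructor
    · rintro ⟨rfl, rfl⟩
      exact ⟨⟨hv, Nat.zero_le _⟩, hv, k, hk, .inl ⟨rfl, rfl, rfl⟩⟩
    · rintro ⟨-, -, j, -, ⟨h, rfl, -⟩ | ⟨-, -, h⟩⟩
      · exact ⟨rfl, h⟩
      · omega

omit hc in
theorem sub0 {w : W} (e : (mkGrEquiv _ _ i).1 = (w, 0)) (hu : ∀ v ∈ vs, ∀ k < (out v).length, U (v, k + 1) = U (v, 0)) :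
    outdeg (mkGr (sV vs out) (sE vs out)).arc i = (out w).length ∧
    Y (mkGr (sV vs out) (sE vs out)).arc (fun i => sX x (mkGrEquiv _ _ i).1) (fun i => U (mkGrEquiv _ _ i).1) i =
      YM vs out x (fun v => U (v, 0)) w := by
  have h : (w, 0) ∈ sV vs out := e ▸ (mkGrEquiv _ _ i).2
  rw [mem_sV] at h
  have hw : w ∈ vs := h.1
  have := mk_Y _ _ (sX x) i ((range (out w).length).image fun k => (w, k + 1))
    (vs.toFinset.biUnion fun v => ((range (out v).length).filter fun k => (out v).getD k v = w).image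
      fun k => (v, k + 1)) ?_ ?_ U
  · rw [this.1, this.2, e, card_image_of_injective _ fun a b h => by simpa using h, card_range, sum_biUnion]
    · refine ⟨rfl, ?_⟩
      simp only [sX, YM, if_true]
      congr 1
      refine sum_congr rfl fun v hv => ?_
      rw [sum_image fun a _ b _ h => by simpa using h, sum_filter, ← count_eq _ v]
      refine sum_congr rfl fun k hk => ?_
      rw [hu v (List.mem_toFinset.1 hv) k (mem_range.1 hk)]
    · intro a _ b _ hab
      simp only [Function.onFun, disjoint_left, mem_image]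
      rintro _ ⟨k, -, rfl⟩ ⟨j, -, h⟩
      exact hab (congrArg Prod.fst h).symm
  · rintro ⟨a, b⟩
    simp only [e, mem_sV, mem_sE, mem_image, mem_range, Prod.mk.injEq]
    constructor
    · rintro ⟨k, hk, rfl, rfl⟩
      exact ⟨⟨hw, hk⟩, hw, k, hk, .inl ⟨trivial, rfl, rfl⟩⟩
    · rintro ⟨-, -, k, hk, ⟨-, rfl, rfl⟩ | ⟨h, -⟩⟩
      · exact ⟨k, hk, rfl, rfl⟩
      · omega
  · rintro ⟨a, b⟩
    simp only [e, mem_filter, List.mem_toFinset, mem_sV, mem_sE, mem_image, mem_range, Prod.mk.injEq, mem_biUnion]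
    constructor
    · rintro ⟨v, hv, k, ⟨hk, rfl⟩, rfl, rfl⟩
      exact ⟨⟨hv, hk⟩, hv, k, hk, .inr ⟨rfl, rfl, trivial⟩⟩
    · rintro ⟨-, ha, k, hk, ⟨-, -, h⟩ | ⟨rfl, rfl, -⟩⟩
      · omega
      · exact ⟨a, ha, k, ⟨hk, rfl⟩, rfl, rfl⟩
end

end Pool.Agent.H.MP_5100e0_lc
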