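import Pool.Agent.H.MP_5100e0_lc.A

namespace Pool.Agent.H.MP_5100e0_lc
open Pool.Agent.Lib.CX Pool.Agent.H.MP_85a811_lc Finset

section
variable {W : Type} [DecidableEq W] (vs : List W) (out : W → List W) (hc : ∀ v ∈ vs, ∀ w ∈ out v, w ∈ vs)
  (x y : W → ℤ) (μ : Fin (mkGr (sV vs out) (sE vs out)).n → Fin (mkGr (sV vs out) (sE vs out)).n → ℕ)
  (hμ : ∀ v w, ((mkGr (sV vs out) (sE vs out)).arc v w → μ v w = 1) ∧
    (¬ (mkGr (sV vs out) (sE vs out)).arc v w → μ v w = 0))
include hc hμ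

theorem sub_reach (hx : ∀ v, 0 ≤ x v) (c : W) (r : W → ℕ) (hr : ∀ v ∈ vs, ∀ w ∈ out v, w ≠ c → r v < r w)
    (hcv : c ∈ vs) (F : W → ℕ) (hF : ∀ w ∈ vs, w ≠ c → 0 ≤ y w ∧ y w < (out w).length)
    (hy : ∀ w ∈ vs, YM vs out x F w = y w)
    (hn : ¬ ∃ U : W → ℕ, ∀ w ∈ vs, 0 ≤ YM vs out x U w ∧ YM vs out x U w < (out w).length) :
    Reach μ (fun i => sX x (mkGrEquiv _ _ i).1) (fun i => sX y (mkGrEquiv _ _ i).1) := by
  rw [← sub_iff vs out hc x hx] at hn
  have hA : ∀ v, ¬ (mkGr (sV vs out) (sE vs out)).arc v v := fun v => by rw [mkGr_arc]; exact sE_loop _ _ _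
  have hY : ∀ i, Y (mkGr (sV vs out) (sE vs out)).arc (fun i => sX x (mkGrEquiv _ _ i).1)
      (fun i => F (mkGrEquiv _ _ i).1.1) i = sX y (mkGrEquiv _ _ i).1 ∧ ((mkGrEquiv _ _ i).1 ≠ (c, 0) →
        0 ≤ sX y (mkGrEquiv _ _ i).1 ∧ sX y (mkGrEquiv _ _ i).1 < outdeg (mkGr (sV vs out) (sE vs out)).arc i) :=
    fun i => by
      have hi : (mkGrEquiv _ _ i).1 ∈ sV vs out := (mkGrEquiv _ _ i).2
      rcases e : (mkGrEquiv _ _ i).1 with ⟨w, _ | k⟩
      · have := sub0 vs out x (fun p => F p.1) i e fun _ _ _ _ => rfl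
        rw [e, mem_sV] at hi
        rw [this.1, this.2, hy w hi.1]
        exact ⟨rfl, fun h => hF w hi.1 fun h' => h (h' ▸ rfl)⟩
      · have := sub1 vs out hc x (fun p => F p.1) i e
        rw [this.1, this.2]
        simp [sX]
  have := reach_of _ μ hμ hA _ hn ((mkGrEquiv _ _).symm ⟨(c, 0), (mem_sV ..).2 ⟨hcv, Nat.zero_le _⟩⟩)
    (fun i => 2 * r (mkGrEquiv _ _ i).1.1 + min (mkGrEquiv _ _ i).1.2 1) (fun z v h hv => ?_)
    (fun i => F (mkGrEquiv _ _ i).1.1) fun v hv => ?_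
  · rwa [funext fun i => (hY i).1] at this
  · rw [mkGr_arc, mem_sE] at h
    obtain ⟨h1, k, hk, ⟨h2, h3⟩ | ⟨h2, h3⟩⟩ := h
    · simp [h2, h3]
    · have := hr _ h1 (mkGrEquiv _ _ v).1.1 (by rw [h3, List.getD_eq_getElem _ _ hk]; exact List.getElem_mem _) fun h =>
        hv ((Equiv.eq_symm_apply _).2 (Subtype.ext (Prod.ext h (by rw [h3]))))
      have h4 : (mkGrEquiv _ _ v).1.2 = 0 := by rw [h3]
      simp only [h2, h4]
      omega
  · rw [(hY v).1]
    exact (hY v).2 fun h => hv ((Equiv.eq_symm_apply _).2 (Subtype.ext h))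

theorem sub_of_reach (h : Reach μ (fun i => sX x (mkGrEquiv _ _ i).1) (fun i => sX y (mkGrEquiv _ _ i).1))
    (U : W → ℕ) (hU : ∀ w ∈ vs, YM vs out x U w < (out w).length) :
    ∃ G : W → ℕ, ∀ w ∈ vs, G w ≤ U w ∧ YM vs out x G w = y w := by
  have hA : ∀ v, ¬ (mkGr (sV vs out) (sE vs out)).arc v v := fun v => by rw [mkGr_arc]; exact sE_loop _ _ _
  obtain ⟨g, h1, h2⟩ := of_reach _ μ hμ hA _ _ h (fun i => U (mkGrEquiv _ _ i).1.1) fun i => by
    have hi : (mkGrEquiv _ _ i).1 ∈ sV vs out := (mkGrEquiv _ _ i).2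
    rcases e : (mkGrEquiv _ _ i).1 with ⟨w, _ | k⟩
    · have := sub0 vs out x (fun p => U p.1) i e fun _ _ _ _ => rfl
      rw [e, mem_sV] at hi
      rw [this.1, this.2]
      exact hU w hi.1
    · have := sub1 vs out hc x (fun p => U p.1) i e
      rw [this.1, this.2]
      simp
  let G : W × ℕ → ℕ := fun w => if h : w ∈ sV vs out then g ((mkGrEquiv _ _).symm ⟨w, h⟩) else 0
  have hG : g = fun i => G (mkGrEquiv _ _ i).1 := funext fun i => by
    have : (mkGrEquiv _ _ i).1 ∈ sV vs out := (mkGrEquiv _ _ i).2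
    simp [G, this]
  rw [hG] at h1 h2
  refine ⟨fun v => G (v, 0), fun w hw => ?_⟩
  have hw' : (w, 0) ∈ sV vs out := (mem_sV ..).2 ⟨hw, Nat.zero_le _⟩
  refine ⟨by simpa using h1 ((mkGrEquiv _ _).symm ⟨_, hw'⟩), ?_⟩
  rw [← (sub0 vs out x G ((mkGrEquiv _ _).symm ⟨_, hw'⟩) (by simp) fun v hv k hk => ?_).2, ← h2]
  · simp [sX]
  · have := (sub1 vs out hc x G ((mkGrEquiv _ _).symm ⟨(v, k + 1), (mem_sV ..).2 ⟨hv, hk⟩⟩) (v := v) (k := k) (by simp)).2
    rw [← h2] at this
    simp [sX] at this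
    omega
end

def yy (m : ℕ) (v : ℕ × ℕ) : ℤ :=
  ((if v.1 = 0 then (if v.2 = 0 then 2 * hh m 0 - 1 + m + (1 - m) else hh m v.2) else if v.1 = 1 then 0 else 1 : ℕ) : ℤ)

theorem build (φ : List (T3 ℕ)) (hφ : ∀ C ∈ φ, ∀ x ∈ C.vars, x < 3 * φ.length) (v : ℕ → Bool) :
    ∃ U : ℕ × ℕ → ℕ, U (0, 3 * φ.length) = 0 ∧ (∀ i < 3 * φ.length, U (0, i) = 2 * U (0, i + 1) + (v i).toNat ∧
      YM (vs φ.length) (out φ) (xx φ.length) U (0, i + 1) = hh φ.length (i + 1) * ((v i).toNat : ℤ) ∧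
      YM (vs φ.length) (out φ) (xx φ.length) U (1, i + 1) = hh φ.length (i + 1) * (1 - ((v i).toNat : ℤ))) ∧
      ∀ j < φ.length, YM (vs φ.length) (out φ) (xx φ.length) U (2, j) =
        (1 + (v (cl φ j).1).toNat + (v (cl φ j).2.1).toNat + (v (cl φ j).2.2).toNat : ℤ) % 3 := by
  have hcl : ∀ j < φ.length, cl φ j ∈ φ := fun j hj => by
    rw [cl, List.getD_eq_getElem _ _ hj]; exact List.getElem_mem _
  have hb : ∀ j < φ.length, ∀ z ∈ six (cl φ j), z ≤ 3 * φ.length := fun j hj => by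
    have := hφ _ (hcl j hj)
    simp [T3.vars, six] at this ⊢
    omega
  let g : ℕ → ℕ := fun k => Nat.rec 0 (fun k a => 2 * a + (v (3 * φ.length - 1 - k)).toNat) k
  let u : ℕ → ℕ := fun i => g (3 * φ.length - i)
  have hu : ∀ i < 3 * φ.length, u i = 2 * u (i + 1) + (v i).toNat := fun i hi => by
    simp only [u]
    rw [show 3 * φ.length - i = (3 * φ.length - (i + 1)) + 1 by omega]
    simp only [g]
    rw [show 3 * φ.length - 1 - (3 * φ.length - (i + 1)) = i by omega]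
  have h0 : u (3 * φ.length) = 0 := by simp [u, g]
  clear_value u
  let U : ℕ × ℕ → ℕ := fun p => if p.1 = 0 then u p.2 else if p.1 = 1 then (1 + u (p.2 - 1)) / 2 else
    (1 + ((six (cl φ p.2)).map u).sum) / 3
  refine ⟨U, h0, fun i hi => ⟨hu i hi, ?_, ?_⟩, fun j hj => ?_⟩
  · rw [YL φ U i hi]; congr 1; have := hu i hi; simp [U]; omega
  · rw [YT φ U i hi]; congr 1; have := hu i hi; have := (v i).toNat_le; simp [U]; omega
  · rw [YP φ U j hj (hb j hj)]
    have h1 := hφ _ (hcl j hj)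
    simp only [T3.vars, List.forall_mem_cons] at h1
    have a1 := hu _ h1.1
    have a2 := hu _ h1.2.1
    have a3 := hu _ h1.2.2.1
    simp [U, six]
    omega

theorem final (φ : List (T3 ℕ)) (hφ : ∀ C ∈ φ, ∀ x ∈ C.vars, x < 3 * φ.length)
    (μ : Fin (mkGr (sV (vs φ.length) (out φ)) (sE (vs φ.length) (out φ))).n → Fin _ → ℕ)
    (hμ : ∀ v w, ((mkGr (sV (vs φ.length) (out φ)) (sE (vs φ.length) (out φ))).arc v w → μ v w = 1) ∧
      (¬ (mkGr (sV (vs φ.length) (out φ)) (sE (vs φ.length) (out φ))).arc v w → μ v w = 0)) :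
    SatR one3 φ ↔ ¬ Reach μ (fun i => sX (xx φ.length) (mkGrEquiv _ _ i).1)
      (fun i => sX (yy φ.length) (mkGrEquiv _ _ i).1) := by
  have h3 : 1 ≤ hh φ.length 0 := by rw [hh_succ _ 0 (Nat.zero_le _)]; omega
  have hcl : ∀ j < φ.length, cl φ j ∈ φ := fun j hj => by
    rw [cl, List.getD_eq_getElem _ _ hj]; exact List.getElem_mem _
  constructor
  · rintro ⟨v, hv⟩ h
    obtain ⟨U, h0, h1, h2⟩ := build φ hφ v
    have hP : ∀ j < φ.length, YM (vs φ.length) (out φ) (xx φ.length) U (2, j) = 2 := fun j hj => by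
      have := hv _ (hcl j hj)
      simp only [one3, beq_iff_eq] at this
      rw [h2 j hj]; omega
    obtain ⟨G, hG⟩ := sub_of_reach _ _ (closed φ) _ _ μ hμ h U fun ⟨a, b⟩ hw => by
      rcases (mem_vs ..).1 hw with ⟨rfl, h⟩ | ⟨rfl, h⟩ | ⟨rfl, h⟩
      · rw [len0 φ b h]
        cases b with
        | zero =>
          rw [Yc φ U fun i hi => by rw [(h1 i hi).2.1, (h1 i hi).2.2]; ring,
            sum_eq_zero fun j hj => by rw [hP j (mem_range.1 hj), sub_self]]
          push_cast; omega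
        | succ i =>
          have := hh_pos _ i h
          rw [(h1 i h).2.1]
          cases v i <;> simp <;> omega
      · obtain ⟨i, rfl⟩ : ∃ i, b = i + 1 := ⟨b - 1, by simp at h; omega⟩
        have := hh_pos _ i h.2
        rw [(h1 i h.2).2.2]
        cases v i <;> simp [out] <;> omega
      · rw [hP b h]; simp [out]
    rcases Nat.eq_zero_or_pos φ.length with hm | hm
    · have := conserve _ _ (closed φ) (xx φ.length) G
      rw [sum_congr rfl fun w hw => (hG w (List.mem_toFinset.1 hw)).2, sum_vs, sum_vs] at this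
      simp [hm, xx, yy] at this
    have hL : ∀ i < 3 * φ.length, G (0, i) = 2 * G (0, i + 1) + 1 := fun i hi => by
      have := (hG (0, i + 1) ((mem_vs ..).2 (.inl ⟨rfl, hi⟩))).2
      rw [YL φ G i hi] at this
      have h4 := hh_pos _ i hi
      simp only [yy, if_true, Nat.add_eq_zero_iff, one_ne_zero, and_false, if_false] at this
      have := mul_left_cancel₀ h4.ne' (this.trans (mul_one _).symm)
      omega
    have hge : ∀ k ≤ 3 * φ.length, U (0, 3 * φ.length - k) ≤ G (0, 3 * φ.length - k) := fun k => by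
      induction k with
      | zero => simp [h0]
      | succ k ih =>
        intro hk
        have a := hL (3 * φ.length - (k + 1)) (by omega)
        have b := (h1 (3 * φ.length - (k + 1)) (by omega)).1
        rw [show 3 * φ.length - (k + 1) + 1 = 3 * φ.length - k by omega] at a b
        have := ih (by omega)
        have := (v (3 * φ.length - (k + 1))).toNat_le
        omega
    have he : ∀ i ≤ 3 * φ.length, G (0, i) = U (0, i) := fun i hi => by
      have := hge (3 * φ.length - i) (by omega)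
      rw [show 3 * φ.length - (3 * φ.length - i) = i by omega] at this
      exact le_antisymm (hG (0, i) ((mem_vs ..).2 (.inl ⟨rfl, hi⟩))).1 this
    have hb : ∀ i < 3 * φ.length, (v i).toNat = 1 := fun i hi => by
      have := hL i hi
      have := (h1 i hi).1
      have := he i hi.le
      have := he (i + 1) hi
      omega
    have h5 := hφ _ (hcl 0 hm)
    simp only [T3.vars, List.forall_mem_cons] at h5
    have := hv _ (hcl 0 hm)
    simp [one3, hb _ h5.1, hb _ h5.2.1, hb _ h5.2.2.1] at this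
  · intro h
    by_contra hn
    have hm : 1 ≤ φ.length := by
      rcases φ with _ | _
      · exact (hn ⟨fun _ => true, by simp⟩).elim
      · simp
    rw [main φ hφ] at hn
    obtain ⟨U, -, h1, h2⟩ := build φ hφ fun _ => true
    refine h (sub_reach _ _ (closed φ) _ _ μ hμ (fun v => Int.natCast_nonneg _) (0, 0)
      (fun v => if v.1 = 2 then 3 * φ.length + 1 else v.2) (fun v hv w hw hne => ?_) ((mem_vs ..).2 (by simp)) U
      (fun ⟨a, b⟩ hw hne => ⟨Int.natCast_nonneg _, ?_⟩) (fun ⟨a, b⟩ hw => ?_) hn)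
    · rw [mem_vs] at hv
      unfold out at hw
      split_ifs at hw with e
      · simp only [List.mem_append, List.mem_replicate, List.mem_cons, List.not_mem_nil, or_false, or_self] at hw
        rcases hw with ((⟨h, rfl⟩ | ⟨h, rfl⟩) | rfl) | h
        · simp [e]
        · simp [e]
        · exact (hne rfl).elim
        · rcases mem_cArcs h with rfl | h
          · exact (hne rfl).elim
          · simp [e, h.1]; omega
      all_goals exact (hne (List.mem_replicate.1 hw).2).elim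
    · rcases (mem_vs ..).1 hw with ⟨rfl, h⟩ | ⟨rfl, h⟩ | ⟨rfl, h⟩
      · obtain ⟨i, rfl⟩ : ∃ i, b = i + 1 := ⟨b - 1, by simp at hne; omega⟩
        have := hh_pos _ i h
        rw [len0 φ _ h]
        simp [yy]; omega
      · obtain ⟨i, rfl⟩ : ∃ i, b = i + 1 := ⟨b - 1, by simp at h; omega⟩
        have := hh_pos _ i h.2
        simp [yy, out]; omega
      · simp [yy, out]
    · rcases (mem_vs ..).1 hw with ⟨rfl, h⟩ | ⟨rfl, h⟩ | ⟨rfl, h⟩
      · cases b with
        | zero =>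
          rw [Yc φ U fun i hi => by rw [(h1 i hi).2.1, (h1 i hi).2.2]; ring,
            sum_congr rfl fun j hj => by rw [h2 j (mem_range.1 hj)]]
          simp [yy]; omega
        | succ i => rw [(h1 i h).2.1]; simp [yy]
      · obtain ⟨i, rfl⟩ : ∃ i, b = i + 1 := ⟨b - 1, by simp at h; omega⟩
        rw [(h1 i h.2).2.2]; simp [yy]
      · rw [h2 b h]; simp [yy]

theorem yes_iff (a : Inst) (n : ℕ) (h : a.1.length = n) (μ : Fin n → Fin n → ℕ) (x y : Fin n → ℤ)
    (hμ : ∀ u v, μ u v = (a.1.getD u []).getD v 0) (hx : ∀ v, x v = a.2.1.getD v 0) (hy : ∀ v, y v = a.2.2.getD v 0) :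
    a.Yes ↔ Reach μ x y := by
  subst h
  rw [funext₂ hμ, funext hx, funext hy]
  rfl

end Pool.Agent.H.MP_5100e0_lc
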