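import Pool.Agent.H.MP_5100e0_lc.B

namespace Pool.Agent.H.MP_5100e0_lc
open Pool.Agent.Lib.CX Pool.Agent.H.MP_85a811_lc

def mat (a : Gr) : List (List ℕ) :=
  (List.range a.1.length).map fun u => (List.range a.1.length).map fun v => if (u, v) ∈ a.2 then 1 else 0
def g (φ : List (T3 ℕ)) : Gr := mkGr (sV (vs φ.length) (out φ)) (sE (vs φ.length) (out φ))
def f (φ : List (T3 ℕ)) : Inst :=
  (mat (g φ), (sV (vs φ.length) (out φ)).dedup.map (sX (xx φ.length)),
    (sV (vs φ.length) (out φ)).dedup.map (sX (yy φ.length)))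

theorem pt_mat : PT mat := by unfold mat; fun_prop

set_option synthInstance.maxSize 2000 in
theorem pt_f : PT f := by
  have h1 : PT fun p : List (T3 ℕ) × ℕ × ℕ => out p.1 p.2 := by unfold out cArcs six cl hh; fun_prop
  have h2 : PT fun φ : List (T3 ℕ) => vs φ.length := by unfold vs; fun_prop
  have h3 : PT fun p : List (T3 ℕ) × (ℕ × ℕ) × ℕ => sX (xx p.1.length) p.2 := by unfold sX xx hh; fun_prop
  have h3' : PT fun p : List (T3 ℕ) × (ℕ × ℕ) × ℕ => sX (yy p.1.length) p.2 := by unfold sX yy hh; fun_prop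
  have h4 : PT fun φ : List (T3 ℕ) => sV (vs φ.length) (out φ) := by unfold sV; fun_prop
  have h5 : PT fun φ : List (T3 ℕ) => sE (vs φ.length) (out φ) := by unfold sE; fun_prop
  have hg : PT g := by unfold g; fun_prop
  have hm := pt_mat
  unfold f; fun_prop

theorem hn (φ : List (T3 ℕ)) : (f φ).1.length = (g φ).n := by simp [f, mat]

theorem hm (φ : List (T3 ℕ)) (u v : ℕ) (hu : u < (g φ).n) (hv : v < (g φ).n) :
    ((f φ).1.getD u []).getD v 0 = if (u, v) ∈ (g φ).2 then 1 else 0 := by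
  simp [f, mat, hu, hv]

theorem valid (φ : List (T3 ℕ)) : (f φ).Valid ∧ ∀ u v, (f φ).mult u v ≤ 1 := by
  refine ⟨⟨by simp [f, mat], fun v => ?_, by rw [hn]; simp [f, g, mkGr_n], by rw [hn]; simp [f, g, mkGr_n]⟩,
    fun u v => ?_⟩
  · have h := v.2.trans_eq (hn φ)
    rw [Inst.mult, hm φ _ _ h h, if_neg]
    exact fun h' => sE_loop _ _ _ ((mkGr_arc _ _ ⟨v, h⟩ ⟨v, h⟩).1 h')
  · rw [Inst.mult, hm φ _ _ (u.2.trans_eq (hn φ)) (v.2.trans_eq (hn φ))]
    split_ifs <;> simp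

theorem key (φ : List (T3 ℕ)) (hφ : ∀ C ∈ φ, C.dist ∧ ∀ x ∈ C.vars, x < 3 * φ.length) :
    SatR one3 φ ↔ ¬ (f φ).Yes := by
  rw [final φ (fun C hC => (hφ C hC).2) (fun u v => if (u.1, v.1) ∈ (g φ).2 then 1 else 0)
    fun u v => ⟨fun h => if_pos h, fun h => if_neg h⟩]
  refine not_congr (yes_iff _ _ (hn φ) _ _ _ (fun u v => (hm φ _ _ u.2 v.2).symm) (fun i => ?_) fun i => ?_).symm <;>
  · have := i.2.trans_eq (mkGr_n _ _)
    simp [f, mkGrEquiv, this]

end Pool.Agent.H.MP_5100e0_lc
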